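import Pool.Agent.Helper83_DPB.Stmts

/-! DPB, module ULIM -/

open Filter Topology Set

namespace Pool.Agent.Helper83_DPB.H92

theorem ulim : UlimStmt := by
  intro E _ _ f C hf
  have hC : 0 ≤ C := (norm_nonneg _).trans (hf 0)
  have hb : ∀ n x, ‖f n x‖ ≤ C * ‖x‖ := fun n x =>
    ((f n).le_opNorm x).trans (mul_le_mul_of_nonneg_right (hf n) (norm_nonneg x))
  have hex : ∀ x, ∃ l : ℂ, Tendsto (fun n => f n x) (hyperfilter ℕ : Filter ℕ) (𝓝 l) := by
    intro x
    have h1 : IsCompact (Metric.closedBall (0 : ℂ) (C * ‖x‖)) := isCompact_closedBall _ _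
    obtain ⟨l, -, hl⟩ := h1.ultrafilter_le_nhds' ((hyperfilter ℕ).map (fun n => f n x)) (by
      rw [Ultrafilter.mem_map]
      apply Filter.univ_mem'
      intro n
      simp only [Set.mem_preimage, mem_closedBall_zero_iff]
      exact hb n x)
    exact ⟨l, hl⟩
  choose g hg using hex
  let gl : E →ₗ[ℂ] ℂ :=
    { toFun := g
      map_add' := fun x y => tendsto_nhds_unique (hg (x + y)) (by
        have := (hg x).add (hg y)
        simpa using this)
      map_smul' := fun c x => tendsto_nhds_unique (hg (c • x)) (by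
        have := (hg x).const_mul c
        simpa using this) }
  have hgb : ∀ x, ‖gl x‖ ≤ C * ‖x‖ := fun x =>
    le_of_tendsto (hg x).norm (Eventually.of_forall (fun n => hb n x))
  exact ⟨gl.mkContinuous C hgb, gl.mkContinuous_norm_le hC hgb, hg⟩

end Pool.Agent.Helper83_DPB.H92
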